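import Pool.Agent.Helper83.RelQ.Defs

/-!
# T-REL for quadric bundles, N1: Nullstellensatz
-/

set_option autoImplicit false

namespace Pool.Agent.Helper60.RelQ

open Pool.Agent.Helper83.Rel Pool.Agent.Helper83.RelQ

/-- **N1.** -/
theorem noZero_of_geom {K : Type} [Field K] {R : Type} [CommRing R] [Algebra K R] {M : ℕ}
    (τ : Fin M → R) (hgen : Algebra.adjoin K (Set.range τ) = ⊤) {n : ℕ}
    (f : MvPolynomial (Fin n) R) (h : GeomNoZero K τ f) :
    NoZero τ ({f} : Set (MvPolynomial (Fin n) R)) := by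
  classical
  intro l
  haveI hft : Algebra.FiniteType K R := by
    refine ⟨⟨Finset.univ.image τ, ?_⟩⟩
    rw [Finset.coe_image, Finset.coe_univ, Set.image_univ, hgen]
  haveI : IsJacobsonRing R := isJacobsonRing_of_finiteType (A := K)
  have h1 : τ l ∈ (Ideal.span (Coefs ({f} : Set (MvPolynomial (Fin n) R)))).radical := by
    rw [Ideal.radical_eq_jacobson, Ideal.jacobson, Ideal.mem_sInf]
    rintro m ⟨hm, hmax⟩
    letI : Field (R ⧸ m) := Ideal.Quotient.field m
    haveI : Algebra.FiniteType K (R ⧸ m) :=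
      Algebra.FiniteType.of_surjective (Ideal.Quotient.mkₐ K m) (Ideal.Quotient.mkₐ_surjective K m)
    haveI : Module.Finite K (R ⧸ m) := finite_of_finite_type_of_isJacobsonRing K (R ⧸ m)
    haveI : Algebra.IsAlgebraic K (R ⧸ m) := Algebra.IsAlgebraic.of_finite K _
    let e : (R ⧸ m) →ₐ[K] AlgebraicClosure K := IsAlgClosed.lift
    let ψ : R →ₐ[K] AlgebraicClosure K := e.comp (Ideal.Quotient.mkₐ K m)
    have h2 : MvPolynomial.map (ψ : R →+* AlgebraicClosure K) f = 0 := by
      ext d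
      rw [MvPolynomial.coeff_map, MvPolynomial.coeff_zero]
      have h3 : f.coeff d ∈ m := hm (Ideal.subset_span ⟨f, rfl, d, rfl⟩)
      show e (Ideal.Quotient.mk m (f.coeff d)) = 0
      rw [Ideal.Quotient.eq_zero_iff_mem.2 h3, map_zero]
    have h4 : e (Ideal.Quotient.mk m (τ l)) = 0 := h ψ h2 l
    rw [← Ideal.Quotient.eq_zero_iff_mem]
    exact (map_eq_zero_iff e e.injective).1 h4
  obtain ⟨s, hs⟩ := h1
  exact ⟨s, hs⟩

end Pool.Agent.Helper60.RelQ
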